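import Pool.Agent.R59.IGraph.Defs

namespace Pool.Agent.R59.IGraph

open Finset

variable {V : Type}

lemma together_symm {W U : Type} {f : W → Finset U} {a b : U} (h : Together f a b) :
    Together f b a := by
  obtain ⟨x, h1, h2⟩ := h
  exact ⟨x, h2, h1⟩

lemma card_of_slide [DecidableEq V] {X Y : Finset V} {u v : V} {k : ℕ} (hX : X.card = k)
    (hY : Y.card = k) (hne : X ≠ Y) (h : Y = (X \ {u}) ∪ {v}) : (X ∩ Y).card + 1 = k := by
  have hu : u ∈ X := by
    by_contra hu
    have h1 : X \ {u} = X := by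
      ext z
      simp only [mem_sdiff, mem_singleton, and_iff_left_iff_imp]
      rintro hz rfl
      exact hu hz
    rw [h1] at h
    have h2 : X ⊆ Y := by
      rw [h]
      exact subset_union_left
    exact hne (eq_of_subset_of_card_le h2 (by omega))
  have hv : v ∉ X := by
    intro hv
    have h2 : Y ⊆ X := by
      rw [h]
      intro z hz
      simp only [mem_union, mem_sdiff, mem_singleton] at hz
      rcases hz with hz | rfl
      · exact hz.1
      · exact hv
    exact hne (eq_of_subset_of_card_le h2 (by omega)).symm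
  have h3 : X ∩ Y = X \ {u} := by
    rw [h]
    ext z
    simp only [mem_inter, mem_union, mem_sdiff, mem_singleton]
    constructor
    · rintro ⟨h4, h5 | rfl⟩
      · exact h5
      · exact absurd h4 hv
    · rintro ⟨h4, h5⟩
      exact ⟨h4, Or.inl ⟨h4, h5⟩⟩
  rw [h3, card_sdiff_of_subset (by simpa using hu), card_singleton]
  have := card_pos.mpr ⟨u, hu⟩
  omega

lemma slide_of_card [DecidableEq V] {X Y : Finset V} {k : ℕ} (hX : X.card = k)
    (hY : Y.card = k) (h : (X ∩ Y).card + 1 = k) :
    ∃ u v, u ∈ X ∧ u ∉ Y ∧ v ∈ Y ∧ v ∉ X ∧ Y = (X \ {u}) ∪ {v} := by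
  have h1 : (X \ Y).card = 1 := by
    have := card_inter_add_card_sdiff X Y
    omega
  have h2 : (Y \ X).card = 1 := by
    have := card_inter_add_card_sdiff Y X
    rw [inter_comm] at this
    omega
  obtain ⟨u, hu⟩ := card_eq_one.mp h1
  obtain ⟨v, hv⟩ := card_eq_one.mp h2
  have hu' : u ∈ X \ Y := by rw [hu]; simp
  have hv' : v ∈ Y \ X := by rw [hv]; simp
  rw [mem_sdiff] at hu' hv'
  refine ⟨u, v, hu'.1, hu'.2, hv'.1, hv'.2, ?_⟩
  ext z
  simp only [mem_union, mem_sdiff, mem_singleton]
  constructor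
  · intro hz
    by_cases hzX : z ∈ X
    · left
      refine ⟨hzX, ?_⟩
      rintro rfl
      exact hu'.2 hz
    · right
      have : z ∈ Y \ X := mem_sdiff.mpr ⟨hz, hzX⟩
      rw [hv] at this
      simpa using this
  · rintro (⟨h3, h4⟩ | rfl)
    · by_contra hz
      have : z ∈ X \ Y := mem_sdiff.mpr ⟨h3, hz⟩
      rw [hu] at this
      exact h4 (by simpa using this)
    · exact hv'.1

/-- Adjacency in token sliding graphs of families of maximal independent sets of equal size. -/
theorem slide_iff [DecidableEq V] (G : SimpleGraph V) (P : Finset V → Prop) (k : ℕ)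
    (hind : ∀ X, P X → Indep G X) (hdom : ∀ X, P X → Dom G X) (hcard : ∀ X, P X → X.card = k)
    (X Y : {X : Finset V // P X}) :
    (slideGraph G P).Adj X Y ↔ X ≠ Y ∧ (X.1 ∩ Y.1).card + 1 = k := by
  unfold slideGraph
  rw [SimpleGraph.fromRel_adj]
  constructor
  · rintro ⟨hne, ⟨u, v, -, h⟩ | ⟨u, v, -, h⟩⟩
    · refine ⟨hne, card_of_slide (hcard _ X.2) (hcard _ Y.2) ?_ h⟩
      intro h'
      exact hne (Subtype.ext h')
    · refine ⟨hne, ?_⟩
      rw [inter_comm]
      refine card_of_slide (hcard _ Y.2) (hcard _ X.2) ?_ h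
      intro h'
      exact hne (Subtype.ext h'.symm)
  · rintro ⟨hne, h⟩
    refine ⟨hne, Or.inl ?_⟩
    obtain ⟨u, v, hu, huY, hv, hvX, hY⟩ := slide_of_card (hcard _ X.2) (hcard _ Y.2) h
    refine ⟨u, v, ?_, hY⟩
    obtain ⟨w, hw, hwv⟩ := hdom _ X.2 v hvX
    by_cases hwu : w = u
    · rw [← hwu]; exact hwv
    · exfalso
      have : w ∈ Y.1 := by
        rw [hY]
        simp [hw, hwu]
      exact hind _ Y.2 w this v hv hwv

lemma dom_of_isASet [DecidableEq V] {G : SimpleGraph V} {X : Finset V} (h : IsASet G X) :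
    Dom G X := by
  intro v hv
  by_contra hcon
  push Not at hcon
  have h1 : Indep G (insert v X) := by
    intro a ha b hb hab
    rw [mem_insert] at ha hb
    rcases ha with rfl | ha <;> rcases hb with rfl | hb
    · exact G.irrefl hab
    · exact hcon b hb hab.symm
    · exact hcon a ha hab
    · exact h.1 a ha b hb hab
  have := h.2 _ h1
  rw [card_insert_of_notMem hv] at this
  omega

lemma exists_isASet [Fintype V] [DecidableEq V] (G : SimpleGraph V) : ∃ X, IsASet G X := by
  classical
  have hne : ((univ : Finset (Finset V)).filter fun X => Indep G X).Nonempty := by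
    refine ⟨∅, mem_filter.mpr ⟨mem_univ _, ?_⟩⟩
    intro u hu
    simp at hu
  obtain ⟨X, hX, hmax⟩ := exists_max_image _ Finset.card hne
  rw [mem_filter] at hX
  exact ⟨X, hX.2, fun T hT => hmax T (by simp [hT])⟩

lemma exists_isISet [Fintype V] [DecidableEq V] (G : SimpleGraph V) : ∃ X, IsISet G X := by
  classical
  have hne : ((univ : Finset (Finset V)).filter fun X => Indep G X ∧ Dom G X).Nonempty := by
    obtain ⟨X, hX⟩ := exists_isASet G
    refine ⟨X, ?_⟩
    simp [hX.1, dom_of_isASet hX]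
  obtain ⟨X, hX, hmin⟩ := exists_min_image _ Finset.card hne
  rw [mem_filter] at hX
  exact ⟨X, hX.2.1, hX.2.2, fun T hT hT' => hmin T (by simp [hT, hT'])⟩

/-- All `i`-sets have the same size. -/
lemma card_isISet {G : SimpleGraph V} {X Y : Finset V} (hX : IsISet G X) (hY : IsISet G Y) :
    X.card = Y.card :=
  le_antisymm (hX.2.2 Y hY.1 hY.2.1) (hY.2.2 X hX.1 hX.2.1)

lemma card_isASet {G : SimpleGraph V} {X Y : Finset V} (hX : IsASet G X) (hY : IsASet G Y) :
    X.card = Y.card :=
  le_antisymm (hY.2 X hX.1) (hX.2 Y hY.1)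

/-- The labelling given by an isomorphism with a token sliding graph. -/
theorem labelling_of_iso {W : Type} {H : SimpleGraph W} [DecidableEq V] (G : SimpleGraph V)
    (P : Finset V → Prop) (k : ℕ)
    (hind : ∀ X, P X → Indep G X) (hdom : ∀ X, P X → Dom G X) (hcard : ∀ X, P X → X.card = k)
    (e : slideGraph G P ≃g H) : JohnsonLabelling H k (fun x => (e.symm x).1) where
  inj := by
    intro x y h
    exact e.symm.injective (Subtype.ext h)
  card := fun x => hcard _ (e.symm x).2
  adj := by
    intro x y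
    rw [← e.symm.map_adj_iff, slide_iff G P k hind hdom hcard]
    constructor
    · rintro ⟨h1, h2⟩
      exact ⟨fun h => h1 (by rw [h]), h2⟩
    · rintro ⟨h1, h2⟩
      exact ⟨fun h => h1 (e.symm.injective h), h2⟩

/-- Conversely, a labelling by exactly the sets of a family of maximal independent sets gives an
isomorphism. -/
theorem iso_of_labelling {W U : Type} {H : SimpleGraph W} [DecidableEq V] [DecidableEq U]
    (G : SimpleGraph V)
    (P : Finset V → Prop) (k : ℕ)
    (hind : ∀ X, P X → Indep G X) (hdom : ∀ X, P X → Dom G X) (hcard : ∀ X, P X → X.card = k)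
    (f : W → Finset U) (hf : JohnsonLabelling H k f) (i : U ↪ V)
    (hP : ∀ X, P X ↔ ∃ x, X = (f x).map i) : Nonempty (slideGraph G P ≃g H) := by
  have hbij : Function.Bijective
      (fun x : W => (⟨(f x).map i, (hP _).mpr ⟨x, rfl⟩⟩ : {X : Finset V // P X})) := by
    constructor
    · intro x y h
      have h1 := congrArg Subtype.val h
      exact hf.inj (map_injective i h1)
    · rintro ⟨X, hX⟩
      obtain ⟨x, hx⟩ := (hP X).mp hX
      exact ⟨x, Subtype.ext hx.symm⟩
  let E := Equiv.ofBijective _ hbij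
  refine ⟨SimpleGraph.Iso.symm ⟨E, ?_⟩⟩
  intro x y
  rw [slide_iff G P k hind hdom hcard, hf.adj x y]
  have h1 : (E x).1 ∩ (E y).1 = (f x ∩ f y).map i := by
    rw [map_inter]
    rfl
  rw [h1, card_map]
  constructor
  · rintro ⟨h2, h3⟩
    exact ⟨fun h => h2 (by rw [h]), h3⟩
  · rintro ⟨h2, h3⟩
    exact ⟨fun h => h2 (E.injective h), h3⟩

end Pool.Agent.R59.IGraph
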