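import Pool.Agent.R59.IGraph.Basic

namespace Pool.Agent.R59.IGraph

open Finset

/-- Every alpha-graph has a flag Johnson labelling. -/
theorem flag_of_aRealizable {W : Type} {H : SimpleGraph W} (h : ARealizable H) :
    Nonempty W ∧ ∃ (U : Type) (_ : Fintype U) (_ : DecidableEq U) (k : ℕ) (f : W → Finset U),
      JohnsonLabelling H k f ∧ Flag k f := by
  obtain ⟨V, i1, i2, G, ⟨e⟩⟩ := h
  obtain ⟨X0, hX0⟩ := exists_isASet G
  refine ⟨⟨e ⟨X0, hX0⟩⟩, V, i1, i2, X0.card, fun x => (e.symm x).1, ?_, ?_⟩
  · exact labelling_of_iso G (IsASet G) X0.card (fun X hX => hX.1)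
      (fun X hX => dom_of_isASet hX) (fun X hX => card_isASet hX hX0) e
  · intro T hT
    have hind : Indep G T := by
      intro u hu v hv huv
      obtain ⟨x, h1, h2⟩ := hT u hu v hv huv.ne
      exact (e.symm x).2.1 u h1 v h2 huv
    refine ⟨hX0.2 T hind, ?_⟩
    intro hc
    have hA : IsASet G T := ⟨hind, fun S hS => by rw [hc]; exact hX0.2 S hS⟩
    refine ⟨e ⟨T, hA⟩, ?_⟩
    simp

/-- Every graph with a flag Johnson labelling is an alpha-graph. -/
theorem aRealizable_of_flag {W : Type} {H : SimpleGraph W} (hW : Nonempty W)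
    (U : Type) [Fintype U] [DecidableEq U] (k : ℕ) (f : W → Finset U)
    (hf : JohnsonLabelling H k f) (hflag : Flag k f) : ARealizable H := by
  let G : SimpleGraph U :=
    { Adj := fun a b => a ≠ b ∧ ¬ Together f a b
      symm := ⟨fun a b hab => ⟨hab.1.symm, fun h => hab.2 (together_symm h)⟩⟩
      loopless := ⟨fun a h => h.1 rfl⟩ }
  have hind : ∀ T : Finset U, Indep G T ↔ ∀ a ∈ T, ∀ b ∈ T, a ≠ b → Together f a b := by
    intro T
    constructor
    · intro h a ha b hb hab
      by_contra hcon
      exact h a ha b hb ⟨hab, hcon⟩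
    · intro h a ha b hb hab
      exact hab.2 (h a ha b hb hab.1)
  have hfind : ∀ x, Indep G (f x) := fun x => (hind _).mpr fun a ha b hb _ => ⟨x, ha, hb⟩
  have hmax : ∀ x, ∀ T, Indep G T → T.card ≤ (f x).card := by
    intro x T hT
    rw [hf.card x]
    exact (hflag T ((hind T).mp hT)).1
  have hP : ∀ X, IsASet G X ↔ ∃ x, X = (f x).map (Function.Embedding.refl U) := by
    intro X
    simp only [map_refl]
    constructor
    · intro hX
      obtain ⟨x0⟩ := hW
      have h1 : X.card = k := by
        refine le_antisymm ((hflag X ((hind X).mp hX.1)).1) ?_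
        rw [← hf.card x0]
        exact hX.2 _ (hfind x0)
      obtain ⟨x, hx⟩ := (hflag X ((hind X).mp hX.1)).2 h1
      exact ⟨x, hx.symm⟩
    · rintro ⟨x, rfl⟩
      exact ⟨hfind x, hmax x⟩
  refine ⟨U, inferInstance, inferInstance, G, ?_⟩
  refine iso_of_labelling G (IsASet G) k (fun X hX => hX.1) (fun X hX => dom_of_isASet hX)
    ?_ f hf (Function.Embedding.refl U) hP
  intro X hX
  obtain ⟨x, rfl⟩ := (hP X).mp hX
  simp [hf.card x]

/-- Every `i`-graph has a maximal Johnson labelling. -/
theorem maxi_of_iRealizable {W : Type} {H : SimpleGraph W} (h : IRealizable H) :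
    Nonempty W ∧ ∃ (U : Type) (_ : Fintype U) (_ : DecidableEq U) (k : ℕ) (f : W → Finset U),
      JohnsonLabelling H k f ∧ Maxi f := by
  obtain ⟨V, i1, i2, G, ⟨e⟩⟩ := h
  obtain ⟨X0, hX0⟩ := exists_isISet G
  refine ⟨⟨e ⟨X0, hX0⟩⟩, V, i1, i2, X0.card, fun x => (e.symm x).1, ?_, ?_⟩
  · exact labelling_of_iso G (IsISet G) X0.card (fun X hX => hX.1)
      (fun X hX => hX.2.1) (fun X hX => card_isISet hX hX0) e
  · intro x a ha
    obtain ⟨b, hb, hba⟩ := (e.symm x).2.2.1 a ha
    refine ⟨b, hb, ?_⟩
    rintro ⟨y, h1, h2⟩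
    exact (e.symm y).2.1 b h2 a h1 hba

/-- Every graph with a maximal Johnson labelling is an `i`-graph. -/
theorem iRealizable_of_maxi {W : Type} {H : SimpleGraph W} (hW : Nonempty W)
    (U : Type) [Fintype U] [DecidableEq U] (k : ℕ) (f : W → Finset U)
    (hf : JohnsonLabelling H k f) (hmaxi : Maxi f) : IRealizable H := by
  classical
  let B : Type := {S : Finset U // ∀ x, ¬ f x ⊆ S}
  let G : SimpleGraph (U ⊕ (B × Fin (k + 1))) :=
    { Adj := fun p q => match p, q with
        | Sum.inl a, Sum.inl b => a ≠ b ∧ ¬ Together f a b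
        | Sum.inl a, Sum.inr s => a ∉ s.1.1
        | Sum.inr s, Sum.inl a => a ∉ s.1.1
        | Sum.inr _, Sum.inr _ => False
      symm := ⟨by
        rintro (a | s) (b | t) hab
        · exact ⟨hab.1.symm, fun h => hab.2 (together_symm h)⟩
        · exact hab
        · exact hab
        · exact hab⟩
      loopless := ⟨by
        rintro (a | s) h
        · exact h.1 rfl
        · exact h⟩ }
  let i : U ↪ (U ⊕ (B × Fin (k + 1))) := Function.Embedding.inl
  have hfind : ∀ x, Indep G ((f x).map i) := by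
    intro x u hu v hv huv
    rw [mem_map] at hu hv
    obtain ⟨a, ha, rfl⟩ := hu
    obtain ⟨b, hb, rfl⟩ := hv
    exact huv.2 ⟨x, ha, hb⟩
  have hfdom : ∀ x, Dom G ((f x).map i) := by
    rintro x (a | s) hv
    · have ha : a ∉ f x := fun ha => hv (mem_map_of_mem i ha)
      obtain ⟨b, hb, hab⟩ := hmaxi x a ha
      refine ⟨i b, mem_map_of_mem i hb, ?_⟩
      refine ⟨?_, fun h => hab (together_symm h)⟩
      rintro rfl
      exact ha hb
    · have h1 : ¬ f x ⊆ s.1.1 := s.1.2 x
      rw [not_subset] at h1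
      obtain ⟨a, ha, has⟩ := h1
      exact ⟨i a, mem_map_of_mem i ha, has⟩
  have key : ∀ T, Indep G T → Dom G T → k < T.card ∨ ∃ x, (f x).map i ⊆ T := by
    intro T hT hdT
    let T0 : Finset U := univ.filter fun a => Sum.inl a ∈ T
    by_cases hex : ∃ x, f x ⊆ T0
    · right
      obtain ⟨x, hx⟩ := hex
      refine ⟨x, ?_⟩
      intro u hu
      rw [mem_map] at hu
      obtain ⟨a, ha, rfl⟩ := hu
      have := hx ha
      exact (mem_filter.mp this).2
    · left
      have hB : ∀ x, ¬ f x ⊆ T0 := fun x hx => hex ⟨x, hx⟩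
      let s : B := ⟨T0, hB⟩
      have hall : ∀ j : Fin (k + 1), (Sum.inr (s, j) : U ⊕ (B × Fin (k + 1))) ∈ T := by
        intro j
        by_contra hj
        obtain ⟨u, hu, huj⟩ := hdT _ hj
        rcases u with a | t
        · exact huj (mem_filter.mpr ⟨mem_univ _, hu⟩)
        · exact huj
      have hsub : (univ : Finset (Fin (k + 1))).image
          (fun j => (Sum.inr (s, j) : U ⊕ (B × Fin (k + 1)))) ⊆ T := by
        intro u hu
        rw [mem_image] at hu
        obtain ⟨j, -, rfl⟩ := hu
        exact hall j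
      have hcard := card_le_card hsub
      rw [card_image_of_injective, card_univ, Fintype.card_fin] at hcard
      · omega
      · intro j j' hjj
        simpa using hjj
  have hcardmap : ∀ x, ((f x).map i).card = k := fun x => by rw [card_map, hf.card x]
  have hge : ∀ T, Indep G T → Dom G T → k ≤ T.card := by
    intro T hT hdT
    rcases key T hT hdT with h | ⟨x, hx⟩
    · omega
    · have := card_le_card hx
      rwa [hcardmap] at this
  have hP : ∀ X, IsISet G X ↔ ∃ x, X = (f x).map i := by
    intro X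
    constructor
    · intro hX
      obtain ⟨x0⟩ := hW
      have h1 : X.card ≤ k := (hX.2.2 _ (hfind x0) (hfdom x0)).trans (hcardmap x0).le
      rcases key X hX.1 hX.2.1 with h | ⟨x, hx⟩
      · omega
      · refine ⟨x, ?_⟩
        exact (eq_of_subset_of_card_le hx (by rw [hcardmap]; exact h1)).symm
    · rintro ⟨x, rfl⟩
      refine ⟨hfind x, hfdom x, ?_⟩
      intro T hT hdT
      rw [hcardmap]
      exact hge T hT hdT
  refine ⟨U ⊕ (B × Fin (k + 1)), inferInstance, inferInstance, G, ?_⟩
  refine iso_of_labelling G (IsISet G) k (fun X hX => hX.1) (fun X hX => hX.2.1)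
    ?_ f hf i hP
  intro X hX
  obtain ⟨x, rfl⟩ := (hP X).mp hX
  exact hcardmap x

/-- A flag labelling is maximal. -/
theorem maxi_of_flag {W U : Type} [DecidableEq U] {H : SimpleGraph W} {k : ℕ} {f : W → Finset U}
    (hf : JohnsonLabelling H k f) (hflag : Flag k f) : Maxi f := by
  intro x a ha
  by_contra hcon
  push Not at hcon
  have h1 := (hflag (insert a (f x)) ?_).1
  · rw [card_insert_of_notMem ha, hf.card x] at h1
    omega
  · intro p hp q hq hpq
    rw [mem_insert] at hp hq
    rcases hp with rfl | hp <;> rcases hq with rfl | hq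
    · exact absurd rfl hpq
    · exact hcon q hq
    · exact together_symm (hcon p hp)
    · exact ⟨x, hp, hq⟩

theorem aRealizable_iff {W : Type} (H : SimpleGraph W) : ARealizable H ↔
    Nonempty W ∧ ∃ (U : Type) (_ : Fintype U) (_ : DecidableEq U) (k : ℕ) (f : W → Finset U),
      JohnsonLabelling H k f ∧ Flag k f := by
  constructor
  · exact flag_of_aRealizable
  · rintro ⟨hW, U, i1, i2, k, f, hf, hflag⟩
    exact aRealizable_of_flag hW U k f hf hflag

theorem iRealizable_iff {W : Type} (H : SimpleGraph W) : IRealizable H ↔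
    Nonempty W ∧ ∃ (U : Type) (_ : Fintype U) (_ : DecidableEq U) (k : ℕ) (f : W → Finset U),
      JohnsonLabelling H k f ∧ Maxi f := by
  constructor
  · exact maxi_of_iRealizable
  · rintro ⟨hW, U, i1, i2, k, f, hf, hm⟩
    exact iRealizable_of_maxi hW U k f hf hm

/-- Every alpha-graph is an `i`-graph. -/
theorem iRealizable_of_aRealizable {W : Type} {H : SimpleGraph W} (h : ARealizable H) :
    IRealizable H := by
  obtain ⟨hW, U, i1, i2, k, f, hf, hflag⟩ := flag_of_aRealizable h
  exact iRealizable_of_maxi hW U k f hf (maxi_of_flag hf hflag)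

end Pool.Agent.R59.IGraph
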