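import Mathlib

/-!
# i-graphs and alpha-graphs

Reconfiguration graphs (token sliding) of the independent dominating sets of smallest size and of
the independent sets of largest size of a finite graph.
-/

namespace Pool.Agent.R59.IGraph

open Finset

/-- `S` is an independent set of `G`. -/
def Indep {V : Type} (G : SimpleGraph V) (S : Finset V) : Prop :=
  ∀ u ∈ S, ∀ v ∈ S, ¬ G.Adj u v

/-- `S` is a dominating set of `G`: every vertex outside `S` has a neighbour in `S`. -/
def Dom {V : Type} (G : SimpleGraph V) (S : Finset V) : Prop :=
  ∀ v, v ∉ S → ∃ u ∈ S, G.Adj u v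

/-- An `i`-set: an independent dominating set of smallest size. -/
def IsISet {V : Type} (G : SimpleGraph V) (S : Finset V) : Prop :=
  Indep G S ∧ Dom G S ∧ ∀ T : Finset V, Indep G T → Dom G T → S.card ≤ T.card

/-- An alpha-set: an independent set of largest size. -/
def IsASet {V : Type} (G : SimpleGraph V) (S : Finset V) : Prop :=
  Indep G S ∧ ∀ T : Finset V, Indep G T → T.card ≤ S.card

/-- The token sliding graph on the sets with property `P`: two distinct sets `X`, `Y` are adjacent
iff one of them arises from the other by replacing one element `u` by an element `v` with `uv` an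
edge of `G`. -/
def slideGraph {V : Type} [DecidableEq V] (G : SimpleGraph V) (P : Finset V → Prop) :
    SimpleGraph {X : Finset V // P X} :=
  SimpleGraph.fromRel fun X Y => ∃ u v : V, G.Adj u v ∧ Y.1 = (X.1 \ {u}) ∪ {v}

/-- The `i`-graph of `G`. -/
def iGraph {V : Type} [DecidableEq V] (G : SimpleGraph V) :
    SimpleGraph {X : Finset V // IsISet G X} := slideGraph G (IsISet G)

/-- The alpha-graph of `G`. -/
def aGraph {V : Type} [DecidableEq V] (G : SimpleGraph V) :
    SimpleGraph {X : Finset V // IsASet G X} := slideGraph G (IsASet G)

/-- `H` is `i`-graph realizable: it is isomorphic to the `i`-graph of a finite graph. -/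
def IRealizable {W : Type} (H : SimpleGraph W) : Prop :=
  ∃ (V : Type) (_ : Fintype V) (_ : DecidableEq V) (G : SimpleGraph V), Nonempty (iGraph G ≃g H)

/-- `H` is alpha-graph realizable: it is isomorphic to the alpha-graph of a finite graph. -/
def ARealizable {W : Type} (H : SimpleGraph W) : Prop :=
  ∃ (V : Type) (_ : Fintype V) (_ : DecidableEq V) (G : SimpleGraph V), Nonempty (aGraph G ≃g H)

/-- `G` is well-covered: `i`-sets and alpha-sets have the same size. -/
def WellCovered {V : Type} (G : SimpleGraph V) : Prop :=
  ∀ X Y : Finset V, IsISet G X → IsASet G Y → X.card = Y.card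

/-- `H` is the `i`-graph of a finite well-covered graph. -/
def WRealizable {W : Type} (H : SimpleGraph W) : Prop :=
  ∃ (V : Type) (_ : Fintype V) (_ : DecidableEq V) (G : SimpleGraph V),
    WellCovered G ∧ Nonempty (iGraph G ≃g H)

/-- Some label contains both `a` and `b`. -/
def Together {W U : Type} (f : W → Finset U) (a b : U) : Prop := ∃ x, a ∈ f x ∧ b ∈ f x

/-- A Johnson labelling of `H` of rank `k`: distinct vertices get distinct `k`-subsets of `U`, and
two distinct vertices are adjacent iff their labels share `k - 1` elements. -/
structure JohnsonLabelling {W U : Type} [DecidableEq U] (H : SimpleGraph W) (k : ℕ)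
    (f : W → Finset U) : Prop where
  inj : Function.Injective f
  card : ∀ x, (f x).card = k
  adj : ∀ x y, H.Adj x y ↔ x ≠ y ∧ (f x ∩ f y).card + 1 = k

/-- Flag condition: every set whose pairs of distinct elements are contained in labels has at most
`k` elements, and it is a label if it has exactly `k` elements. -/
def Flag {W U : Type} (k : ℕ) (f : W → Finset U) : Prop :=
  ∀ T : Finset U, (∀ a ∈ T, ∀ b ∈ T, a ≠ b → Together f a b) →
    T.card ≤ k ∧ (T.card = k → ∃ x, f x = T)

/-- Maximality condition: no element outside a label is together with all elements of the label. -/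
def Maxi {W U : Type} (f : W → Finset U) : Prop :=
  ∀ x, ∀ a, a ∉ f x → ∃ b ∈ f x, ¬ Together f a b

end Pool.Agent.R59.IGraph
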