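import Pool.Agent.R59.IGraph.Char

namespace Pool.Agent.R59.IGraph

open Finset

section Squares

variable {W U : Type} [DecidableEq U] {H : SimpleGraph W} {k : ℕ} {f : W → Finset U}

lemma inter_le (hf : JohnsonLabelling H k f) (x y : W) : (f x ∩ f y).card ≤ k := by
  rw [← hf.card x]
  exact card_le_card inter_subset_left

/-- Non-adjacent distinct vertices share at most `k - 2` elements. -/
lemma inter_lt (hf : JohnsonLabelling H k f) {x y : W} (hne : x ≠ y) (h : ¬ H.Adj x y) :
    (f x ∩ f y).card + 2 ≤ k := by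
  have h1 := inter_le hf x y
  have h2 : (f x ∩ f y).card ≠ k := by
    intro h2
    apply hne
    apply hf.inj
    have h3 : f x ∩ f y = f x := eq_of_subset_of_card_le inter_subset_left (by rw [hf.card x, h2])
    have h4 : f x ∩ f y = f y := eq_of_subset_of_card_le inter_subset_right (by rw [hf.card y, h2])
    rw [← h3, h4]
  have h3 : (f x ∩ f y).card + 1 ≠ k := fun h3 => h ((hf.adj x y).mpr ⟨hne, h3⟩)
  omega

/-- A vertex `p` adjacent to `o` has a label with exactly one new element. -/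
lemma new_elt (hf : JohnsonLabelling H k f) {o p : W} (h : H.Adj o p) :
    ∃ a, f p \ f o = {a} := by
  have h1 := ((hf.adj o p).mp h).2
  have h2 := card_inter_add_card_sdiff (f p) (f o)
  rw [hf.card p, inter_comm] at h2
  exact card_eq_one.mp (by omega)

lemma new_unique {o p : W} {a b : U} (h : f p \ f o = {a}) (h1 : b ∈ f p) (h2 : b ∉ f o) :
    b = a := by
  have : b ∈ f p \ f o := mem_sdiff.mpr ⟨h1, h2⟩
  rw [h] at this
  simpa using this

lemma new_mem {o p : W} {a : U} (h : f p \ f o = {a}) : a ∈ f p ∧ a ∉ f o := by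
  have : a ∈ f p \ f o := by rw [h]; simp
  exact mem_sdiff.mp this

/-- If `p` and `q` are distinct non-adjacent neighbours of `o`, then a new element of `p` is not
in `q`. -/
lemma not_mem_other (hf : JohnsonLabelling H k f) {o p q : W} (hp : H.Adj o p) (hq : H.Adj o q)
    (hpq : p ≠ q) (hn : ¬ H.Adj p q) {a : U} (ha : a ∈ f p) (hao : a ∉ f o) : a ∉ f q := by
  intro haq
  have h1 := ((hf.adj o p).mp hp).2
  have h2 := ((hf.adj o q).mp hq).2
  have h3 := inter_lt hf hpq hn
  have h4 : (f o ∩ f p).card + (f o ∩ f q).card ≤ k + ((f o ∩ f p) ∩ (f o ∩ f q)).card := by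
    rw [← card_union_add_card_inter]
    have : ((f o ∩ f p) ∪ (f o ∩ f q)).card ≤ k := by
      rw [← hf.card o]
      exact card_le_card (union_subset inter_subset_left inter_subset_left)
    omega
  have h5 : insert a ((f o ∩ f p) ∩ (f o ∩ f q)) ⊆ f p ∩ f q := by
    intro z hz
    simp only [mem_insert, mem_inter] at hz
    rcases hz with rfl | hz
    · exact mem_inter.mpr ⟨ha, haq⟩
    · exact mem_inter.mpr ⟨hz.1.2, hz.2.2⟩
  have h6 := card_le_card h5
  rw [card_insert_of_notMem (by simp [hao])] at h6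
  omega

/-- In an induced square `o p z q` a new element of `p` belongs to `z`. -/
lemma mem_square (hf : JohnsonLabelling H k f) {o p z : W} (hp : H.Adj o p)
    (hpz : H.Adj p z) (hoz : o ≠ z) (hn : ¬ H.Adj o z) {a : U} (ha : a ∈ f p) (hao : a ∉ f o) :
    a ∈ f z := by
  by_contra haz
  have h1 := ((hf.adj o p).mp hp).2
  have h2 := ((hf.adj p z).mp hpz).2
  have h3 := inter_lt hf hoz hn
  have hk : (f p).card = k := hf.card p
  have h4 : ((f p).erase a).card + 1 = k := by
    rw [card_erase_of_mem ha, hk]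
    have := card_pos.mpr ⟨a, ha⟩
    omega
  have h5 : f o ∩ f p = (f p).erase a := by
    apply eq_of_subset_of_card_le
    · intro y hy
      rw [mem_inter] at hy
      rw [mem_erase]
      refine ⟨?_, hy.2⟩
      rintro rfl
      exact hao hy.1
    · omega
  have h6 : f p ∩ f z = (f p).erase a := by
    apply eq_of_subset_of_card_le
    · intro y hy
      rw [mem_inter] at hy
      rw [mem_erase]
      refine ⟨?_, hy.1⟩
      rintro rfl
      exact haz hy.2
    · omega
  have h7 : (f p).erase a ⊆ f o ∩ f z := by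
    intro y hy
    rw [mem_inter]
    constructor
    · rw [← h5] at hy
      exact (mem_inter.mp hy).1
    · rw [← h6] at hy
      exact (mem_inter.mp hy).2
  have := card_le_card h7
  omega

end Squares

/-- The labels of the cube minus a vertex: `1` is replaced by `4`, etc. -/
def lab7 : Fin 7 → Finset (Fin 6) :=
  ![{0, 1, 2}, {3, 1, 2}, {0, 4, 2}, {0, 1, 5}, {3, 4, 2}, {3, 1, 5}, {0, 4, 5}]

/-- The 3-dimensional cube minus a vertex. Vertex `0` is adjacent to `1`, `2`, `3`; vertex `4` to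
`1`, `2`; vertex `5` to `1`, `3`; vertex `6` to `2`, `3`. -/
def cubeMinus : SimpleGraph (Fin 7) :=
  SimpleGraph.fromRel fun x y =>
    (x, y) ∈ ([(0, 1), (0, 2), (0, 3), (1, 4), (2, 4), (1, 5), (3, 5), (2, 6), (3, 6)] :
      List (Fin 7 × Fin 7))

instance : DecidableRel cubeMinus.Adj := by
  unfold cubeMinus
  infer_instance

lemma lab7_labelling : JohnsonLabelling cubeMinus 3 lab7 where
  inj := by decide
  card := by decide
  adj := by decide

instance {W U : Type} [Fintype W] [DecidableEq U] (f : W → Finset U) (a b : U) :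
    Decidable (Together f a b) := by
  unfold Together
  infer_instance

lemma lab7_maxi : Maxi lab7 := by
  unfold Maxi
  decide

theorem cubeMinus_iRealizable : IRealizable cubeMinus :=
  iRealizable_of_maxi ⟨0⟩ (Fin 6) 3 lab7 lab7_labelling lab7_maxi

theorem cubeMinus_not_aRealizable : ¬ ARealizable cubeMinus := by
  intro h
  obtain ⟨-, U, i1, i2, k, f, hf, hflag⟩ := flag_of_aRealizable h
  have a01 : cubeMinus.Adj 0 1 := by decide
  have a02 : cubeMinus.Adj 0 2 := by decide
  have a03 : cubeMinus.Adj 0 3 := by decide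
  have a14 : cubeMinus.Adj 1 4 := by decide
  have a24 : cubeMinus.Adj 2 4 := by decide
  have a15 : cubeMinus.Adj 1 5 := by decide
  have a35 : cubeMinus.Adj 3 5 := by decide
  have a26 : cubeMinus.Adj 2 6 := by decide
  have a36 : cubeMinus.Adj 3 6 := by decide
  obtain ⟨a, ha⟩ := new_elt hf a01
  obtain ⟨b, hb⟩ := new_elt hf a02
  obtain ⟨c, hc⟩ := new_elt hf a03
  obtain ⟨ha1, ha0⟩ := new_mem ha
  obtain ⟨hb1, hb0⟩ := new_mem hb
  obtain ⟨hc1, hc0⟩ := new_mem hc
  have ha2 : a ∉ f 2 := not_mem_other hf a01 a02 (by decide) (by decide) ha1 ha0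
  have ha3 : a ∉ f 3 := not_mem_other hf a01 a03 (by decide) (by decide) ha1 ha0
  have hb1' : b ∉ f 1 := not_mem_other hf a02 a01 (by decide) (by decide) hb1 hb0
  have hb3 : b ∉ f 3 := not_mem_other hf a02 a03 (by decide) (by decide) hb1 hb0
  have hc1' : c ∉ f 1 := not_mem_other hf a03 a01 (by decide) (by decide) hc1 hc0
  have hc2 : c ∉ f 2 := not_mem_other hf a03 a02 (by decide) (by decide) hc1 hc0
  have ha4 : a ∈ f 4 := mem_square hf a01 a14 (by decide) (by decide) ha1 ha0
  have ha5 : a ∈ f 5 := mem_square hf a01 a15 (by decide) (by decide) ha1 ha0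
  have hb4 : b ∈ f 4 := mem_square hf a02 a24 (by decide) (by decide) hb1 hb0
  have hb6 : b ∈ f 6 := mem_square hf a02 a26 (by decide) (by decide) hb1 hb0
  have hc5 : c ∈ f 5 := mem_square hf a03 a35 (by decide) (by decide) hc1 hc0
  have hc6 : c ∈ f 6 := mem_square hf a03 a36 (by decide) (by decide) hc1 hc0
  have hab : a ≠ b := fun h => ha2 (h ▸ hb1)
  have hac : a ≠ c := fun h => ha3 (h ▸ hc1)
  have hbc : b ≠ c := fun h => hb3 (h ▸ hc1)
  -- `c` is not in `f 4` etc.
  have hc4 : c ∉ f 4 := by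
    intro h4
    obtain ⟨d, hd⟩ := new_elt hf a14
    have e1 := new_unique hd h4 hc1'
    have e2 := new_unique hd hb4 hb1'
    exact hbc (e2.trans e1.symm)
  have hb5 : b ∉ f 5 := by
    intro h5
    obtain ⟨d, hd⟩ := new_elt hf a15
    have e1 := new_unique hd h5 hb1'
    have e2 := new_unique hd hc5 hc1'
    exact hbc (e1.trans e2.symm)
  have ha6 : a ∉ f 6 := by
    intro h6
    obtain ⟨d, hd⟩ := new_elt hf a26
    have e1 := new_unique hd h6 ha2
    have e2 := new_unique hd hc6 hc2
    exact hac (e1.trans e2.symm)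
  -- the core
  let R : Finset U := ((f 0 ∩ f 1) ∩ (f 0 ∩ f 2)) ∩ (f 0 ∩ f 3)
  have c1 := ((hf.adj 0 1).mp a01).2
  have c2 := ((hf.adj 0 2).mp a02).2
  have c3 := ((hf.adj 0 3).mp a03).2
  have hR : k ≤ R.card + 3 := by
    have h1 := card_union_add_card_inter (f 0 ∩ f 1) (f 0 ∩ f 2)
    have h2 : ((f 0 ∩ f 1) ∪ (f 0 ∩ f 2)).card ≤ k := by
      rw [← hf.card 0]
      exact card_le_card (union_subset inter_subset_left inter_subset_left)
    have h3 := card_union_add_card_inter ((f 0 ∩ f 1) ∩ (f 0 ∩ f 2)) (f 0 ∩ f 3)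
    have h4 : (((f 0 ∩ f 1) ∩ (f 0 ∩ f 2)) ∪ (f 0 ∩ f 3)).card ≤ k := by
      rw [← hf.card 0]
      refine card_le_card (union_subset ?_ inter_subset_left)
      exact inter_subset_left.trans inter_subset_left
    have h5 : R.card = (((f 0 ∩ f 1) ∩ (f 0 ∩ f 2)) ∩ (f 0 ∩ f 3)).card := rfl
    omega
  have hRmem : ∀ z ∈ R, z ∈ f 0 ∧ z ∈ f 1 ∧ z ∈ f 2 ∧ z ∈ f 3 := by
    intro z hz
    simp only [R, mem_inter] at hz
    exact ⟨hz.1.1.1, hz.1.1.2, hz.1.2.2, hz.2.2⟩
  have haR : a ∉ R := fun h => ha0 (hRmem a h).1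
  have hbR : b ∉ R := fun h => hb0 (hRmem b h).1
  have hcR : c ∉ R := fun h => hc0 (hRmem c h).1
  let T : Finset U := insert a (insert b (insert c R))
  have hTcard : T.card = R.card + 3 := by
    simp only [T]
    rw [card_insert_of_notMem, card_insert_of_notMem, card_insert_of_notMem hcR]
    · simp [hbc, hbR]
    · simp [hab, hac, haR]
  have hT := hflag T (by
    intro p hp q hq hpq
    simp only [T, mem_insert] at hp hq
    rcases hp with rfl | rfl | rfl | hp
    · rcases hq with rfl | rfl | rfl | hq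
      · exact absurd rfl hpq
      · exact ⟨4, ha4, hb4⟩
      · exact ⟨5, ha5, hc5⟩
      · exact ⟨1, ha1, (hRmem q hq).2.1⟩
    · rcases hq with rfl | rfl | rfl | hq
      · exact ⟨4, hb4, ha4⟩
      · exact absurd rfl hpq
      · exact ⟨6, hb6, hc6⟩
      · exact ⟨2, hb1, (hRmem q hq).2.2.1⟩
    · rcases hq with rfl | rfl | rfl | hq
      · exact ⟨5, hc5, ha5⟩
      · exact ⟨6, hc6, hb6⟩
      · exact absurd rfl hpq
      · exact ⟨3, hc1, (hRmem q hq).2.2.2⟩
    · rcases hq with rfl | rfl | rfl | hq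
      · exact ⟨1, (hRmem p hp).2.1, ha1⟩
      · exact ⟨2, (hRmem p hp).2.2.1, hb1⟩
      · exact ⟨3, (hRmem p hp).2.2.2, hc1⟩
      · exact ⟨0, (hRmem p hp).1, (hRmem q hq).1⟩)
  obtain ⟨x, hx⟩ := hT.2 (le_antisymm hT.1 (by omega))
  have hax : a ∈ f x := by rw [hx]; simp [T]
  have hbx : b ∈ f x := by rw [hx]; simp [T]
  have hcx : c ∈ f x := by rw [hx]; simp [T]
  fin_cases x
  · exact ha0 hax
  · exact hb1' hbx
  · exact ha2 hax
  · exact ha3 hax
  · exact hc4 hcx
  · exact hb5 hbx
  · exact ha6 hax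

end Pool.Agent.R59.IGraph
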