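import Pool.Agent.R59.IGraph.Strict

namespace Pool.Agent.R59.IGraph

open Finset

/-- The `i`-graph of a well-covered graph has a labelling in which every set of elements that are
pairwise together is contained in a label. -/
theorem pure_of_wRealizable {W : Type} {H : SimpleGraph W} (h : WRealizable H) :
    ∃ (U : Type) (_ : Fintype U) (_ : DecidableEq U) (k : ℕ) (f : W → Finset U),
      JohnsonLabelling H k f ∧
      ∀ T : Finset U, (∀ a ∈ T, ∀ b ∈ T, a ≠ b → Together f a b) → ∃ x, T ⊆ f x := by
  classical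
  obtain ⟨V, i1, i2, G, hwell, ⟨e⟩⟩ := h
  obtain ⟨X0, hX0⟩ := exists_isISet G
  obtain ⟨Y0, hY0⟩ := exists_isASet G
  refine ⟨V, i1, i2, X0.card, fun x => (e.symm x).1, ?_, ?_⟩
  · exact labelling_of_iso G (IsISet G) X0.card (fun X hX => hX.1)
      (fun X hX => hX.2.1) (fun X hX => card_isISet hX hX0) e
  · intro T hT
    have hind : Indep G T := by
      intro u hu v hv huv
      obtain ⟨x, h1, h2⟩ := hT u hu v hv huv.ne
      exact (e.symm x).2.1 u h1 v h2 huv
    have hne : ((univ : Finset (Finset V)).filter fun X => Indep G X ∧ T ⊆ X).Nonempty :=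
      ⟨T, mem_filter.mpr ⟨mem_univ _, hind, Subset.refl _⟩⟩
    obtain ⟨M, hM, hmax⟩ := exists_max_image _ Finset.card hne
    rw [mem_filter] at hM
    obtain ⟨-, hMind, hTM⟩ := hM
    have hMdom : Dom G M := by
      intro v hv
      by_contra hcon
      push Not at hcon
      have h1 : Indep G (insert v M) := by
        intro a ha b hb hab
        rw [mem_insert] at ha hb
        rcases ha with rfl | ha <;> rcases hb with rfl | hb
        · exact G.irrefl hab
        · exact hcon b hb hab.symm
        · exact hcon a ha hab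
        · exact hMind a ha b hb hab
      have h2 := hmax (insert v M)
        (mem_filter.mpr ⟨mem_univ _, h1, hTM.trans (subset_insert _ _)⟩)
      rw [card_insert_of_notMem hv] at h2
      omega
    have hMI : IsISet G M := by
      refine ⟨hMind, hMdom, ?_⟩
      intro S hS hS'
      have h1 := hY0.2 M hMind
      rw [← hwell X0 Y0 hX0 hY0] at h1
      exact h1.trans (hX0.2.2 S hS hS')
    refine ⟨e ⟨M, hMI⟩, ?_⟩
    simpa using hTM

/-- Labels of twelve vertices. -/
def lab12 : Fin 12 → Finset (Fin 9) :=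
  ![{0, 1, 2, 6}, {0, 1, 2, 7}, {0, 1, 2, 8}, {0, 4, 2, 6}, {0, 1, 5, 6}, {0, 4, 5, 6},
    {3, 1, 2, 7}, {0, 1, 5, 7}, {3, 1, 5, 7}, {3, 1, 2, 8}, {0, 4, 2, 8}, {3, 4, 2, 8}]

/-- A graph on twelve vertices with eighteen edges: a triangle, three squares containing one vertex
of the triangle each, and three more edges. -/
def twelve : SimpleGraph (Fin 12) :=
  SimpleGraph.fromRel fun x y =>
    (x, y) ∈ ([(0, 1), (0, 2), (1, 2), (0, 3), (0, 4), (3, 5), (4, 5), (1, 6), (1, 7), (6, 8),
      (7, 8), (2, 9), (2, 10), (9, 11), (10, 11), (4, 7), (6, 9), (3, 10)] :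
      List (Fin 12 × Fin 12))

instance : DecidableRel twelve.Adj := by
  unfold twelve
  infer_instance

lemma lab12_labelling : JohnsonLabelling twelve 4 lab12 where
  inj := by decide +kernel
  card := by decide
  adj := by decide +kernel

lemma lab12_flag : Flag 4 lab12 := by
  unfold Flag
  decide +kernel

theorem twelve_aRealizable : ARealizable twelve :=
  aRealizable_of_flag ⟨0⟩ (Fin 9) 4 lab12 lab12_labelling lab12_flag

theorem twelve_not_wRealizable : ¬ WRealizable twelve := by
  intro h
  obtain ⟨U, i1, i2, k, f, hf, hpure⟩ := pure_of_wRealizable h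
  have a01 : twelve.Adj 0 1 := by decide
  have a10 : twelve.Adj 1 0 := by decide
  have a02 : twelve.Adj 0 2 := by decide
  have a20 : twelve.Adj 2 0 := by decide
  have a12 : twelve.Adj 1 2 := by decide
  have a21 : twelve.Adj 2 1 := by decide
  have a03 : twelve.Adj 0 3 := by decide
  have a04 : twelve.Adj 0 4 := by decide
  have a35 : twelve.Adj 3 5 := by decide
  have a45 : twelve.Adj 4 5 := by decide
  have a16 : twelve.Adj 1 6 := by decide
  have a17 : twelve.Adj 1 7 := by decide
  have a68 : twelve.Adj 6 8 := by decide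
  have a78 : twelve.Adj 7 8 := by decide
  have a29 : twelve.Adj 2 9 := by decide
  have a2t : twelve.Adj 2 10 := by decide
  have a9e : twelve.Adj 9 11 := by decide
  have ate : twelve.Adj 10 11 := by decide
  have a47 : twelve.Adj 4 7 := by decide
  have a69 : twelve.Adj 6 9 := by decide
  have a3t : twelve.Adj 3 10 := by decide
  obtain ⟨a, ha⟩ := new_elt hf a16
  obtain ⟨b, hb⟩ := new_elt hf a03
  obtain ⟨c, hc⟩ := new_elt hf a04
  obtain ⟨ha6, ha1⟩ := new_mem ha
  obtain ⟨hb3, hb0⟩ := new_mem hb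
  obtain ⟨hc4, hc0⟩ := new_mem hc
  -- `a` is new over the vertex `2` as well, `b` over `2`, `c` over `1`
  have ha9 : a ∈ f 9 := mem_square hf a16 a69 (by decide) (by decide) ha6 ha1
  have ha2 : a ∉ f 2 := not_mem_other hf a16 a12 (by decide) (by decide) ha6 ha1
  have ha0 : a ∉ f 0 := not_mem_other hf a16 a10 (by decide) (by decide) ha6 ha1
  have hbt : b ∈ f 10 := mem_square hf a03 a3t (by decide) (by decide) hb3 hb0
  have hb2 : b ∉ f 2 := not_mem_other hf a03 a02 (by decide) (by decide) hb3 hb0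
  have hb1 : b ∉ f 1 := not_mem_other hf a03 a01 (by decide) (by decide) hb3 hb0
  have hc7 : c ∈ f 7 := mem_square hf a04 a47 (by decide) (by decide) hc4 hc0
  have hc1 : c ∉ f 1 := not_mem_other hf a04 a01 (by decide) (by decide) hc4 hc0
  have hc2 : c ∉ f 2 := not_mem_other hf a04 a02 (by decide) (by decide) hc4 hc0
  -- the three far corners
  have hb5 : b ∈ f 5 := mem_square hf a03 a35 (by decide) (by decide) hb3 hb0
  have hc5 : c ∈ f 5 := mem_square hf a04 a45 (by decide) (by decide) hc4 hc0
  have ha8 : a ∈ f 8 := mem_square hf a16 a68 (by decide) (by decide) ha6 ha1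
  have hc8 : c ∈ f 8 := mem_square hf a17 a78 (by decide) (by decide) hc7 hc1
  have hae : a ∈ f 11 := mem_square hf a29 a9e (by decide) (by decide) ha9 ha2
  have hbe : b ∈ f 11 := mem_square hf a2t ate (by decide) (by decide) hbt hb2
  -- distinctness
  have hb4 : b ∉ f 4 := not_mem_other hf a03 a04 (by decide) (by decide) hb3 hb0
  have hc3 : c ∉ f 3 := not_mem_other hf a04 a03 (by decide) (by decide) hc4 hc0
  have ha7 : a ∉ f 7 := not_mem_other hf a16 a17 (by decide) (by decide) ha6 ha1
  have hc6 : c ∉ f 6 := not_mem_other hf a17 a16 (by decide) (by decide) hc7 hc1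
  have hat : a ∉ f 10 := not_mem_other hf a29 a2t (by decide) (by decide) ha9 ha2
  have hb9 : b ∉ f 9 := not_mem_other hf a2t a29 (by decide) (by decide) hbt hb2
  have hab : a ≠ b := fun h => hat (h ▸ hbt)
  have hac : a ≠ c := fun h => ha7 (h ▸ hc7)
  have hbc : b ≠ c := fun h => hc3 (h ▸ hb3)
  obtain ⟨x, hx⟩ := hpure {a, b, c} (by
    intro p hp q hq hpq
    simp only [mem_insert, mem_singleton] at hp hq
    rcases hp with rfl | rfl | rfl <;> rcases hq with rfl | rfl | rfl
    · exact absurd rfl hpq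
    · exact ⟨11, hae, hbe⟩
    · exact ⟨8, ha8, hc8⟩
    · exact ⟨11, hbe, hae⟩
    · exact absurd rfl hpq
    · exact ⟨5, hb5, hc5⟩
    · exact ⟨8, hc8, ha8⟩
    · exact ⟨5, hc5, hb5⟩
    · exact absurd rfl hpq)
  have hax : a ∈ f x := hx (by simp)
  have hbx : b ∈ f x := hx (by simp)
  have hcx : c ∈ f x := hx (by simp)
  have key : ∀ {o p : Fin 12}, twelve.Adj o p → ∀ {u v : U}, u ∈ f p → u ∉ f o →
      v ∈ f p → v ∉ f o → u = v := by
    intro o p hop u v h1 h2 h3 h4
    obtain ⟨d, hd⟩ := new_elt hf hop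
    exact (new_unique hd h1 h2).trans (new_unique hd h3 h4).symm
  fin_cases x
  · exact ha0 hax
  · exact ha1 hax
  · exact ha2 hax
  · exact hab (key a03 hax ha0 hbx hb0)
  · exact hac (key a04 hax ha0 hcx hc0)
  · -- vertex 5: new over 3 is only `c`
    have ha3 : a ∉ f 3 := fun h => hab (key a03 h ha0 hb3 hb0)
    exact hac (key a35 hax ha3 hcx hc3)
  · exact hab (key a16 hax ha1 hbx hb1)
  · exact ha7 hax
  · -- vertex 8: new over 6 is only `c`
    have hb6 : b ∉ f 6 := fun h => hab (key a16 ha6 ha1 h hb1)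
    exact hbc (key a68 hbx hb6 hcx hc6)
  · exact hb9 hbx
  · exact hat hax
  · -- vertex 11: new over 9 is only `b`
    have hc9 : c ∉ f 9 := fun h => hac (key a29 ha9 ha2 h hc2)
    exact hbc (key a9e hbx hb9 hcx hc9)

end Pool.Agent.R59.IGraph
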